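import Pool.Agent.Lib.MP_c7af3c_ag.T2C.IfaceA

/-!
# MP_c7af3c_ag, project T2C, row NO3: no three-dimensional space over `k`, module statements
Types (2,3,3), (2,2,2,3), (2,2,2,2,2). One count on a quadric surface: message / finding
NO3 of helper97. Each owner proves `theorem xyz : XyzStatement` in T2C/Hnn/Xyz.lean.

Rank 4: the surface is parametrised by `(1, Z, T, T Z)`, `T = X 0`, `Z = X 1`; rank 3: by
`(1, T, T ^ 2, W)`, `W = X 1` of weight 2.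
-/

set_option autoImplicit false

namespace Pool.Agent.T2C.NO3

open MvPolynomial Pool.Agent.Gen Pool.Agent.Sharp Pool.Agent.Edge
open Pool.Agent.T2 (Fk Rac Sizes Sit)

/-- polynomials in `X 0`, `X 1` of degrees at most `a`, `b` in `X 0`, `X 1` -/
noncomputable def bid (L : Type) [Field L] (a b : ℕ) : Submodule L (MvPolynomial (Fin 2) L) :=
  restrictSupport L {I | I 0 ≤ a ∧ I 1 ≤ b}

/-- polynomials in `X 0` (weight 1), `X 1` (weight 2) of weight at most `e` -/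
noncomputable def wtd (L : Type) [Field L] (e : ℕ) : Submodule L (MvPolynomial (Fin 2) L) :=
  restrictSupport L {I | I 0 + 2 * I 1 ≤ e}

/-- the dimension of `wtd e` -/
def NW (e : ℕ) : ℕ := ∑ j ∈ Finset.range (e / 2 + 1), (e - 2 * j + 1)

/-- the parametrisation of the quadric of rank 4 -/
noncomputable def psiS (L : Type) [Field L] : Fin 4 → MvPolynomial (Fin 2) L :=
  ![1, X 1, X 0, X 0 * X 1]

/-- the parametrisation of the quadric of rank 3 -/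
noncomputable def psiC (L : Type) [Field L] : Fin 4 → MvPolynomial (Fin 2) L :=
  ![1, X 0, X 0 ^ 2, X 1]

/-- the restriction of a form to the surface `∑ ψ_j u_j` -/
noncomputable def rho {L : Type} [Field L] {n : ℕ} (ψ : Fin 4 → MvPolynomial (Fin 2) L)
    (u : Fin 4 → Fin (n + 1) → L) :
    MvPolynomial (Fin (n + 1)) L →ₐ[L] MvPolynomial (Fin 2) L :=
  aeval fun p => ∑ j, C (u j p) * ψ j

/-- the restriction of a form to the space spanned by the `u_j` -/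
noncomputable def sub4 {L : Type} [Field L] {n : ℕ} (u : Fin 4 → Fin (n + 1) → L) :
    MvPolynomial (Fin (n + 1)) L →ₐ[L] MvPolynomial (Fin 4) L :=
  aeval fun p => ∑ j, C (u j p) * X j

/-- Row N3S: the count, rank 4. The map `(c, λ, μ) ↦ (∑ c_jp ψ_j ρ(F_(m,p)) + λ g_m + h μ_m)_m` into
`∏ bid (d m) (d m)` is onto (apply `D_G` to `ρ(F_m) = h g_m`), its kernel has dimension at least 8:
`∂_T`, `T ∂_T`, `T ^ 2 ∂_T - d T`, the same for `Z`, the identity, and `(0, h, -g)`. -/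
def N3SStatement : Prop := ∀ (L : Type) [Field L] [CharZero L] (n c : ℕ) (d : Fin c → ℕ)
  (D : DSys L n c d) (u : Fin 4 → Fin (n + 1) → L), LinearIndependent L u →
  ∀ (m0 : Fin c) (a b : ℕ) (h : MvPolynomial (Fin 2) L) (g : Fin c → MvPolynomial (Fin 2) L),
  rho (psiS L) u (D.F m0) = 0 → g m0 = 0 → h ∈ bid L a b → h ≠ 0 →
  (∀ m, m ≠ m0 → rho (psiS L) u (D.F m) = h * g m) →
  (∀ m, g m ∈ bid L (d m - a) (d m - b)) → (∀ m, ¬(a ≤ d m ∧ b ≤ d m) → g m = 0) →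
  ∑ m, (d m + 1) ^ 2 + 8 ≤ 4 * (n + 1) + (a + 1) * (b + 1) +
    ∑ m, if m ≠ m0 ∧ a ≤ d m ∧ b ≤ d m then (d m - a + 1) * (d m - b + 1) else 0

/-- Row N3C: the count, rank 3. The same with `wtd`; the kernel has dimension at least 9: `∂_T`,
`T ∂_T`, `T ^ 2 ∂_T + 2 T W ∂_W - 2 d T`, `W ∂_W`, `∂_W`, `T ∂_W`, `T ^ 2 ∂_W`, the identity, and
`(0, h, -g)`. -/
def N3CStatement : Prop := ∀ (L : Type) [Field L] [CharZero L] (n c : ℕ) (d : Fin c → ℕ)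
  (D : DSys L n c d) (u : Fin 4 → Fin (n + 1) → L), LinearIndependent L u →
  ∀ (m0 : Fin c) (e : ℕ) (h : MvPolynomial (Fin 2) L) (g : Fin c → MvPolynomial (Fin 2) L),
  rho (psiC L) u (D.F m0) = 0 → g m0 = 0 → h ∈ wtd L e → h ≠ 0 →
  (∀ m, m ≠ m0 → rho (psiC L) u (D.F m) = h * g m) →
  (∀ m, g m ∈ wtd L (2 * d m - e)) → (∀ m, ¬ e ≤ 2 * d m → g m = 0) →
  ∑ m, NW (2 * d m) + 9 ≤ 4 * (n + 1) + NW e +
    ∑ m, if m ≠ m0 ∧ e ≤ 2 * d m then NW (2 * d m - e) else 0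

/-- Row N3US: a common factor, rank 4. -/
def N3USStatement : Prop := ∀ (Ω : Type) [Field Ω] [CharZero Ω] (K : Subfield Ω), Rac K →
  ∀ τ ζ : Ω, (∀ a : Fin 4 → Ω, (∀ i, a i ∈ K) →
    a 0 + a 1 * ζ + a 2 * τ + a 3 * (τ * ζ) = 0 → a = 0) →
  ∀ (c : ℕ) (d : Fin c → ℕ) (f : Fin c → MvPolynomial (Fin 2) Ω),
  (∀ m, f m ∈ bid Ω (d m) (d m)) → (∀ m I, coeff I (f m) ∈ K) →
  (∀ m, eval ![τ, ζ] (f m) = 0) → (∃ m, f m ≠ 0) →
  ∃ (a b : ℕ) (h : MvPolynomial (Fin 2) Ω) (g : Fin c → MvPolynomial (Fin 2) Ω),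
    1 ≤ a ∧ 1 ≤ b ∧ 3 ≤ a + b ∧ h ∈ bid Ω a b ∧ h ≠ 0 ∧ (∀ m, f m = h * g m) ∧
    (∀ m, g m ∈ bid Ω (d m - a) (d m - b)) ∧ (∀ m, ¬(a ≤ d m ∧ b ≤ d m) → g m = 0)

/-- Row N3UC: a common factor, rank 3. -/
def N3UCStatement : Prop := ∀ (Ω : Type) [Field Ω] [CharZero Ω] (K : Subfield Ω), Rac K →
  ∀ τ ζ : Ω, (∀ a : Fin 4 → Ω, (∀ i, a i ∈ K) →
    a 0 + a 1 * τ + a 2 * τ ^ 2 + a 3 * ζ = 0 → a = 0) →
  ∀ (c : ℕ) (d : Fin c → ℕ) (f : Fin c → MvPolynomial (Fin 2) Ω),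
  (∀ m, f m ∈ wtd Ω (2 * d m)) → (∀ m I, coeff I (f m) ∈ K) →
  (∀ m, eval ![τ, ζ] (f m) = 0) → (∃ m, f m ≠ 0) →
  ∃ (e : ℕ) (h : MvPolynomial (Fin 2) Ω) (g : Fin c → MvPolynomial (Fin 2) Ω),
    3 ≤ e ∧ h ∈ wtd Ω e ∧ h ≠ 0 ∧ (∀ m, f m = h * g m) ∧
    (∀ m, g m ∈ wtd Ω (2 * d m - e)) ∧ (∀ m, ¬ e ≤ 2 * d m → g m = 0)

/-- Row N3Q: quadrics over an algebraically closed field through a point which is on no plane. -/
def N3QStatement : Prop := ∀ (Ω : Type) [Field Ω] [CharZero Ω] (K : Subfield Ω), IsAlgClosed K →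
  ∀ y : Fin 4 → Ω, (∀ a : Fin 4 → Ω, (∀ i, a i ∈ K) → ∑ i, a i * y i = 0 → a = 0) →
  ∀ f : MvPolynomial (Fin 4) Ω, Fk K 2 f → f ≠ 0 → eval y f = 0 →
  ∃ (g : Fin 4 → Fin 4 → Ω) (lam τ ζ : Ω), (∀ i j, g i j ∈ K) ∧ LinearIndependent Ω g ∧
    lam ≠ 0 ∧
    ((aeval (fun p => ∑ j, C (g j p) * psiS Ω j) f = 0 ∧
      ∀ i, y i = lam * (g 0 i + ζ * g 1 i + τ * g 2 i + τ * ζ * g 3 i)) ∨
    (aeval (fun p => ∑ j, C (g j p) * psiC Ω j) f = 0 ∧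
      ∀ i, y i = lam * (g 0 i + τ * g 1 i + τ ^ 2 * g 2 i + ζ * g 3 i)))

/-- Row N3Z: some quadric does not vanish on the space. (2,2,2,2,2): `50 ≤ 36 - 16` is false,
(2,2,2,3): `30 ≤ 32 - 16` is false, (2,3,3): the linear forms `F_(m,p)|u` have a common zero. -/
def N3ZStatement : Prop := ∀ (L : Type) [Field L] [CharZero L] (n c : ℕ) (d : Fin c → ℕ)
  (D : DSys L n c d), n = c + 3 → ∑ m, d m = n + 2 → (∀ m, 2 ≤ d m) → (∀ m, d m ≤ 3) →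
  ∀ u : Fin 4 → Fin (n + 1) → L, LinearIndependent L u → ∃ m, d m = 2 ∧ sub4 u (D.F m) ≠ 0

/-- Row N3ASM: base change to the algebraic closure (as in EXTA) and assembly. -/
def N3AsmStatement : Prop := C2.LdStatement → C2.DexStatement → NoplStatement →
  N3SStatement → N3CStatement → N3USStatement → N3UCStatement → N3QStatement → N3ZStatement →
  No3Statement

end Pool.Agent.T2C.NO3
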